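import Mathlib

/-!
# A `2 × 2` matrix whose best approximation vectors eventually span a plane

`Θ = (1/100) u vᵀ` with `u = v = (1, √2)`. Then `Θ x = t(x) (1, √2) / 100`, `t(x) = x₀ + √2 x₁`. If `y ≠ 0` the
distance of `Θ x` to `y` is at least `1 / |x|`, since `√2` is badly approximable, while for `y = 0` it can be made
smaller than `1 / (30 |x|)` by Dirichlet's theorem. So all best approximation vectors with `|x| ≥ 3` have `y = 0`.
-/

set_option autoImplicit false

namespace Pool.Agent.Results.MP_a0fa86_nt.RankOneMatrix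

open Matrix

/-- `|Θ x - y|`, in the sup-norm of `ℝ²` -/
noncomputable def resid (Θ : Matrix (Fin 2) (Fin 2) ℝ) (z : (Fin 2 → ℤ) × (Fin 2 → ℤ)) : ℝ :=
  ‖Θ *ᵥ (fun j => (z.1 j : ℝ)) - (fun i => (z.2 i : ℝ))‖

/-- Condition (G): `Θ x` is not an integer vector for every integer vector `x ≠ 0`. -/
def CondG (Θ : Matrix (Fin 2) (Fin 2) ℝ) : Prop :=
  ∀ x y : Fin 2 → ℤ, x ≠ 0 → Θ *ᵥ (fun j => (x j : ℝ)) ≠ fun i => (y i : ℝ)

/-- `z = (x, y)` is a best approximation vector of `Θ` -/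
def IsBest (Θ : Matrix (Fin 2) (Fin 2) ℝ) (z : (Fin 2 → ℤ) × (Fin 2 → ℤ)) : Prop :=
  z.1 ≠ 0 ∧ ∀ w : (Fin 2 → ℤ) × (Fin 2 → ℤ), ‖w.1‖ ≤ ‖z.1‖ → resid Θ w ≤ resid Θ z →
    w = 0 ∨ w = z ∨ w = -z

/-- `z 0, z 1, …` is the list of the best approximation vectors of `Θ`, one from each pair `± z`, ordered by the
size of `x` -/
def IsList (Θ : Matrix (Fin 2) (Fin 2) ℝ) (z : ℕ → (Fin 2 → ℤ) × (Fin 2 → ℤ)) : Prop :=
  (∀ ν, IsBest Θ (z ν)) ∧ StrictMono (fun ν => ‖(z ν).1‖) ∧
    ∀ w, IsBest Θ w → ∃ ν, w = z ν ∨ w = -z ν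

/-- the span over `ℝ` of `z ν`, `ν ≥ ν₀` -/
def tailSpan (z : ℕ → (Fin 2 → ℤ) × (Fin 2 → ℤ)) (ν₀ : ℕ) : Submodule ℝ ((Fin 2 → ℝ) × (Fin 2 → ℝ)) :=
  Submodule.span ℝ {v | ∃ ν, ν₀ ≤ ν ∧ v = (fun j => ((z ν).1 j : ℝ), fun i => ((z ν).2 i : ℝ))}

/-! ### `√2` -/

theorem two_sq_ne (n p : ℤ) (hn : n ≠ 0) : 2 * n ^ 2 - p ^ 2 ≠ 0 := by
  intro h
  have hn' : (n : ℝ) ≠ 0 := by exact_mod_cast hn
  have h1 : ((p : ℝ) / n) ^ 2 = 2 := by
    have : (2 * (n : ℝ) ^ 2 - (p : ℝ) ^ 2) = 0 := by exact_mod_cast h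
    field_simp
    linarith
  have h2 : |(p : ℝ) / n| = √2 := by
    rw [← h1, Real.sqrt_sq_eq_abs]
  apply irrational_sqrt_two
  refine ⟨|(p : ℚ) / n|, ?_⟩
  rw [← h2]
  push_cast
  rfl

theorem sqrt2_lower (n : ℤ) (hn : n ≠ 0) (p : ℤ) :
    1 / (4 * |(n : ℝ)|) ≤ |n * √2 - p| := by
  have hn1 : (1 : ℝ) ≤ |(n : ℝ)| := by exact_mod_cast Int.one_le_abs hn
  by_cases h : |n * √2 - p| ≤ 1
  · have h1 : (1 : ℝ) ≤ |2 * (n : ℝ) ^ 2 - (p : ℝ) ^ 2| := by
      exact_mod_cast Int.one_le_abs (two_sq_ne n p hn)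
    have h2 : |n * √2 - p| * |n * √2 + p| = |2 * (n : ℝ) ^ 2 - (p : ℝ) ^ 2| := by
      rw [← abs_mul]
      congr 1
      have : √2 ^ 2 = 2 := Real.sq_sqrt (by norm_num)
      linear_combination (n : ℝ) ^ 2 * this
    have hs : √2 ≤ 3 / 2 := by
      rw [Real.sqrt_le_left (by norm_num)]; norm_num
    have h3 : |n * √2 + p| ≤ 4 * |(n : ℝ)| := by
      have e : n * √2 + p = 2 * (n * √2) - (n * √2 - p) := by ring
      rw [e]
      refine (abs_sub _ _).trans ?_
      rw [abs_mul, abs_mul, abs_of_nonneg (Real.sqrt_nonneg 2), abs_two]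
      nlinarith [abs_nonneg (n : ℝ)]
    rw [div_le_iff₀ (by positivity)]
    calc (1 : ℝ) ≤ |n * √2 - p| * |n * √2 + p| := by rw [h2]; exact h1
      _ ≤ |n * √2 - p| * (4 * |(n : ℝ)|) := by gcongr
  · push Not at h
    refine le_trans ?_ h.le
    rw [div_le_one (by positivity)]
    linarith

lemma s2 : √2 ≤ 1.4143 := by
  rw [Real.sqrt_le_left (by norm_num)]; norm_num

lemma s1 : 1.414 ≤ √2 := by
  apply Real.le_sqrt_of_sq_le; norm_num

/-- `t(x) = x₀ + √2 x₁` -/
noncomputable def t (x : Fin 2 → ℤ) : ℝ := x 0 + √2 * x 1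

lemma t_eq_zero {x : Fin 2 → ℤ} (h : t x = 0) : x = 0 := by
  have h1 : x 1 = 0 := by
    by_contra hne
    have := sqrt2_lower (x 1) hne (-(x 0))
    have e : (x 1 : ℝ) * √2 - ((-(x 0) : ℤ) : ℝ) = t x := by
      unfold t; push_cast; ring
    rw [e, h, abs_zero] at this
    have h2 : 0 < |((x 1 : ℤ) : ℝ)| := by
      rw [abs_pos]; exact_mod_cast hne
    have : 0 < 1 / (4 * |((x 1 : ℤ) : ℝ)|) := by positivity
    linarith
  have h0 : (x 0 : ℝ) = 0 := by
    unfold t at h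
    rw [h1] at h
    simpa using h
  funext i
  fin_cases i
  · exact_mod_cast h0
  · exact h1

lemma t_sub (x y : Fin 2 → ℤ) : t (x - y) = t x - t y := by
  unfold t; simp only [Pi.sub_apply]; push_cast; ring

lemma t_add (x y : Fin 2 → ℤ) : t (x + y) = t x + t y := by
  unfold t; simp only [Pi.add_apply]; push_cast; ring

lemma t_inj {x y : Fin 2 → ℤ} (h : |t x| = |t y|) : x = y ∨ x = -y := by
  rcases abs_eq_abs.1 h with h | h
  · left
    have : t (x - y) = 0 := by rw [t_sub, h, sub_self]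
    exact sub_eq_zero.1 (t_eq_zero this)
  · right
    have : t (x + y) = 0 := by rw [t_add, h, neg_add_cancel]
    exact eq_neg_of_add_eq_zero_left (t_eq_zero this)

/-- the matrix -/
noncomputable def Th : Matrix (Fin 2) (Fin 2) ℝ := !![1 / 100, √2 / 100; √2 / 100, 2 / 100]

lemma Th_mulVec (x : Fin 2 → ℤ) (i : Fin 2) :
    (Th *ᵥ (fun j => (x j : ℝ))) i = t x / 100 * (if i = 0 then 1 else √2) := by
  have hs : √2 * √2 = 2 := Real.mul_self_sqrt (by norm_num)
  unfold t Th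
  fin_cases i
  · simp [Matrix.mulVec, dotProduct, Fin.sum_univ_two]; ring
  · simp [Matrix.mulVec, dotProduct, Fin.sum_univ_two]
    linear_combination (-(x 1 : ℝ) / 100) * hs

lemma resid_zero (x : Fin 2 → ℤ) : resid Th (x, 0) = √2 / 100 * |t x| := by
  unfold resid
  have h1 : (Th *ᵥ (fun j => (x j : ℝ)) - fun i => (((0 : Fin 2 → ℤ) i : ℤ) : ℝ)) =
      fun i => t x / 100 * (if i = 0 then 1 else √2) := by
    funext i
    simp only [Pi.sub_apply, Th_mulVec, Pi.zero_apply, Int.cast_zero, sub_zero]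
  simp only at h1 ⊢
  rw [h1]
  have hs1 := s1
  apply le_antisymm
  · rw [pi_norm_le_iff_of_nonneg (by positivity)]
    intro i
    rw [Real.norm_eq_abs, abs_mul, abs_div]
    fin_cases i
    · simp
      have := abs_nonneg (t x)
      nlinarith
    · simp [abs_of_nonneg (Real.sqrt_nonneg 2)]
      apply le_of_eq; ring
  · have := norm_le_pi_norm (fun i : Fin 2 => t x / 100 * (if i = 0 then 1 else √2)) 1
    refine le_trans (le_of_eq ?_) this
    simp [abs_of_nonneg (Real.sqrt_nonneg 2)]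
    ring

lemma abs_le_norm (x : Fin 2 → ℤ) (i : Fin 2) : |(x i : ℝ)| ≤ ‖x‖ := by
  have := norm_le_pi_norm x i
  rwa [Int.norm_eq_abs] at this

/-- the distance to integer points with `y ≠ 0` is large -/
lemma resid_lower (x y : Fin 2 → ℤ) (X : ℝ) (hX : 3 ≤ X) (hx : ‖x‖ ≤ X) (hr : resid Th (x, y) < 1 / X) : y = 0 := by
  set r := resid Th (x, y) with hrdef
  have hr0 : 0 ≤ r := norm_nonneg _
  have hX0 : 0 < X := by linarith
  have hr3 : r < 1 / 3 := hr.trans_le (one_div_le_one_div_of_le (by norm_num) hX)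
  have hrX : r * X < 1 := by rwa [lt_div_iff₀ hX0] at hr
  have hs1 := s1
  have hs2 := s2
  have hss : √2 * √2 = 2 := Real.mul_self_sqrt (by norm_num)
  set s := t x / 100 with hsdef
  have h0 : |s - y 0| ≤ r := by
    have := norm_le_pi_norm (Th *ᵥ (fun j => (x j : ℝ)) - fun i => (y i : ℝ)) 0
    rw [Pi.sub_apply, Th_mulVec, Real.norm_eq_abs, if_pos rfl, mul_one] at this
    exact this
  have h1 : |s * √2 - y 1| ≤ r := by
    have := norm_le_pi_norm (Th *ᵥ (fun j => (x j : ℝ)) - fun i => (y i : ℝ)) 1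
    rw [Pi.sub_apply, Th_mulVec, Real.norm_eq_abs, if_neg (by norm_num)] at this
    exact this
  have hsX : |s| ≤ 0.02415 * X := by
    rw [hsdef, abs_div]
    have hx0 := (abs_le_norm x 0).trans hx
    have hx1 := (abs_le_norm x 1).trans hx
    have : |t x| ≤ |(x 0 : ℝ)| + √2 * |(x 1 : ℝ)| := by
      unfold t
      refine (abs_add_le _ _).trans ?_
      rw [abs_mul, abs_of_nonneg (Real.sqrt_nonneg 2)]
    have h3 : |t x| ≤ 2.415 * X := by nlinarith
    rw [abs_of_pos (by norm_num : (0 : ℝ) < 100), div_le_iff₀ (by norm_num)]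
    linarith
  by_cases hy0 : y 0 = 0
  · rw [hy0] at h0
    simp only [Int.cast_zero, sub_zero] at h0
    have h2 : |(y 1 : ℝ)| < 1 := by
      have e : (y 1 : ℝ) = s * √2 - (s * √2 - y 1) := by ring
      rw [e]
      refine (abs_sub _ _).trans_lt ?_
      rw [abs_mul, abs_of_nonneg (Real.sqrt_nonneg 2)]
      nlinarith
    have h3 : y 1 = 0 := by
      have : |y 1| < 1 := by exact_mod_cast h2
      exact Int.abs_lt_one_iff.1 this
    funext i
    fin_cases i
    · exact hy0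
    · exact h3
  · exfalso
    have h2 := sqrt2_lower (y 0) hy0 (y 1)
    have hy1 : (1 : ℝ) ≤ |(y 0 : ℝ)| := by exact_mod_cast Int.one_le_abs hy0
    have h3 : |(y 0 : ℝ) * √2 - y 1| ≤ 2.4143 * r := by
      have e : (y 0 : ℝ) * √2 - y 1 = (s * √2 - y 1) - √2 * (s - y 0) := by ring
      rw [e]
      refine (abs_sub _ _).trans ?_
      rw [abs_mul, abs_of_nonneg (Real.sqrt_nonneg 2)]
      nlinarith [abs_nonneg (s - y 0)]
    have h4 : |(y 0 : ℝ)| ≤ |s| + r := by
      have e : (y 0 : ℝ) = s - (s - y 0) := by ring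
      rw [e]
      refine (abs_sub _ _).trans ?_
      linarith
    have h5 : (1 : ℝ) ≤ 2.4143 * r * (4 * |(y 0 : ℝ)|) := by
      rw [div_le_iff₀ (by positivity)] at h2
      refine h2.trans ?_
      exact mul_le_mul_of_nonneg_right h3 (by positivity)
    have h6 : (27 : ℝ) ≤ X := by nlinarith
    have h7 : r ≤ 1 / 27 := hr.le.trans (one_div_le_one_div_of_le (by norm_num) h6)
    have h8 : r * |(y 0 : ℝ)| ≤ r * (0.02415 * X + r) := mul_le_mul_of_nonneg_left (by linarith) hr0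
    nlinarith

lemma norm_cast_nat (x : Fin 2 → ℤ) : ∃ n : ℕ, ‖x‖ = n := by
  refine ⟨max (x 0).natAbs (x 1).natAbs, ?_⟩
  apply le_antisymm
  · rw [pi_norm_le_iff_of_nonneg (by positivity)]
    intro i
    rw [Int.norm_eq_abs]
    fin_cases i
    · simp [Nat.cast_natAbs]
    · simp [Nat.cast_natAbs]
  · push_cast
    apply max_le
    · have := abs_le_norm x 0
      simpa [Nat.cast_natAbs] using this
    · have := abs_le_norm x 1
      simpa [Nat.cast_natAbs] using this

/-- Dirichlet -/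
lemma dirichlet (X : ℕ) (hX : 2 ≤ X) : ∃ x : Fin 2 → ℤ, x ≠ 0 ∧ ‖x‖ ≤ X ∧ |t x| ≤ 2 / X := by
  have hQ : 0 < X / 2 := Nat.div_pos hX (by norm_num)
  obtain ⟨p, q, hq0, hqQ, hpq⟩ := Real.exists_int_int_abs_mul_sub_le (√2) hQ
  have hXR : (2 : ℝ) ≤ X := by exact_mod_cast hX
  have hQX : ((X / 2 : ℕ) : ℝ) ≤ X / 2 := by
    exact_mod_cast Nat.cast_div_le
  have hQX2 : (X : ℝ) / 2 ≤ ((X / 2 : ℕ) : ℝ) + 1 := by
    have : X ≤ 2 * (X / 2) + 2 := by omega
    have : (X : ℝ) ≤ 2 * ((X / 2 : ℕ) : ℝ) + 2 := by exact_mod_cast this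
    linarith
  have hqR : (q : ℝ) ≤ ((X / 2 : ℕ) : ℝ) := by
    have := (Int.cast_le (R := ℝ)).2 hqQ
    rwa [Int.cast_natCast] at this
  have hq0R : (0 : ℝ) < q := by exact_mod_cast hq0
  have hs1 := s1
  have hs2 := s2
  have hsmall : |(q : ℝ) * √2 - p| ≤ 2 / X := by
    refine hpq.trans ?_
    rw [div_le_div_iff₀ (by positivity) (by positivity)]
    linarith
  have hhalf : |(q : ℝ) * √2 - p| ≤ 1 / 2 := by
    refine hpq.trans ?_
    rw [div_le_div_iff₀ (by positivity) (by norm_num)]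
    have : (1 : ℝ) ≤ ((X / 2 : ℕ) : ℝ) := by exact_mod_cast hQ
    linarith
  refine ⟨![-p, q], ?_, ?_, ?_⟩
  · intro h
    have := congrFun h 1
    simp at this
    omega
  · rw [pi_norm_le_iff_of_nonneg (by positivity)]
    intro i
    rw [Int.norm_eq_abs]
    fin_cases i
    · simp
      have e : (p : ℝ) = q * √2 - (q * √2 - p) := by ring
      rw [e]
      refine (abs_sub _ _).trans ?_
      rw [abs_mul, abs_of_pos hq0R, abs_of_nonneg (Real.sqrt_nonneg 2)]
      nlinarith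
    · simp
      rw [abs_of_pos hq0R]
      linarith
  · have e : t ![-p, q] = q * √2 - p := by
      unfold t
      simp
      ring
    rw [e]
    exact hsmall

lemma best_snd {z : (Fin 2 → ℤ) × (Fin 2 → ℤ)} (hz : IsBest Th z) (h3 : 3 ≤ ‖z.1‖) : z.2 = 0 := by
  obtain ⟨n, hn⟩ := norm_cast_nat z.1
  rw [hn] at h3
  have hn3 : 3 ≤ n := by exact_mod_cast h3
  have hn0 : (0 : ℝ) < n := by linarith
  obtain ⟨x, hx0, hxn, hxt⟩ := dirichlet n (by omega)
  by_contra hne
  have h1 : 1 / (n : ℝ) ≤ resid Th z := by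
    by_contra hcon
    push Not at hcon
    exact hne (resid_lower z.1 z.2 n h3 hn.le hcon)
  have h2 : resid Th (x, 0) ≤ resid Th z := by
    rw [resid_zero]
    refine le_trans ?_ h1
    have hs2 := s2
    calc √2 / 100 * |t x| ≤ 1.4143 / 100 * (2 / n) := by gcongr
      _ ≤ 1 / n := by
        rw [mul_div_assoc', div_le_div_iff_of_pos_right hn0]
        norm_num
  rcases hz.2 (x, 0) (by rw [hn]; exact hxn) h2 with h | h | h
  · exact hx0 (congrArg Prod.fst h)
  · apply hne; rw [← h]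
  · apply hne
    have := congrArg Prod.snd h
    simp only [Prod.snd_neg] at this
    exact neg_eq_zero.1 this.symm

lemma exists_best (N : ℕ) : ∃ z, IsBest Th z ∧ (N : ℝ) < ‖z.1‖ := by
  classical
  -- the points of height at most `X`
  have hfin : ∀ X : ℕ, {x : Fin 2 → ℤ | x ≠ 0 ∧ ‖x‖ ≤ X}.Finite := by
    intro X
    refine Set.Finite.subset (Set.finite_Icc (fun _ : Fin 2 => -(X : ℤ)) (fun _ => (X : ℤ))) ?_
    rintro x ⟨-, hx⟩
    rw [Set.mem_Icc]
    constructor
    · intro i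
      have := (abs_le_norm x i).trans hx
      have h2 : |x i| ≤ (X : ℤ) := by exact_mod_cast this
      exact (abs_le.1 h2).1
    · intro i
      have := (abs_le_norm x i).trans hx
      have h2 : |x i| ≤ (X : ℤ) := by exact_mod_cast this
      exact (abs_le.1 h2).2
  -- a lower bound for the values at points of height at most `N + 3`
  obtain ⟨x₁, ⟨hx₁0, hx₁N⟩, hx₁⟩ := Set.exists_min_image _ (fun x => |t x|) (hfin (N + 3))
    (by
      obtain ⟨x, h0, h1, -⟩ := dirichlet (N + 3) (by omega)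
      exact ⟨x, h0, h1⟩)
  set δ := |t x₁| with hδ
  have hδ0 : 0 < δ := by
    rw [hδ, abs_pos]
    exact fun h => hx₁0 (t_eq_zero h)
  -- some point has a smaller value
  have hex : ∃ X : ℕ, ∃ x : Fin 2 → ℤ, x ≠ 0 ∧ ‖x‖ ≤ X ∧ |t x| < δ := by
    obtain ⟨X, hX⟩ := exists_nat_gt (2 / δ)
    obtain ⟨x, h0, h1, h2⟩ := dirichlet (X + 2) (by omega)
    refine ⟨X + 2, x, h0, h1, h2.trans_lt ?_⟩
    rw [div_lt_iff₀ (by positivity)]
    rw [div_lt_iff₀ hδ0] at hX
    push_cast
    nlinarith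
  set X := Nat.find hex with hXdef
  obtain ⟨x₂, hx₂0, hx₂X, hx₂⟩ := Nat.find_spec hex
  have hmin : ∀ X' < X, ∀ x : Fin 2 → ℤ, x ≠ 0 → ‖x‖ ≤ X' → δ ≤ |t x| := by
    intro X' hX' x h0 h1
    by_contra hcon
    push Not at hcon
    exact Nat.find_min hex hX' ⟨x, h0, h1, hcon⟩
  obtain ⟨x, ⟨hx0, hxX⟩, hx⟩ := Set.exists_min_image _ (fun x => |t x|) (hfin X) ⟨x₂, hx₂0, hx₂X⟩
  have hxδ : |t x| < δ := (hx x₂ ⟨hx₂0, hx₂X⟩).trans_lt hx₂
  have hNX : N + 3 < X := by
    by_contra hcon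
    push Not at hcon
    have : ‖x‖ ≤ ((N + 3 : ℕ) : ℝ) := hxX.trans (by exact_mod_cast hcon)
    have := hx₁ x ⟨hx0, this⟩
    linarith
  have hxeq : ‖x‖ = X := by
    obtain ⟨n, hn⟩ := norm_cast_nat x
    rw [hn] at hxX ⊢
    have h1 : n ≤ X := by exact_mod_cast hxX
    rcases h1.eq_or_lt with h | h
    · rw [h]
    · have := hmin n h x hx0 hn.le
      linarith
  have hX3 : (3 : ℝ) ≤ X := by
    have : 3 ≤ X := by omega
    exact_mod_cast this
  have hX0 : (0 : ℝ) < X := by linarith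
  obtain ⟨x₃, hx₃0, hx₃X, hx₃⟩ := dirichlet X (by omega)
  have hxt : |t x| ≤ 2 / X := (hx x₃ ⟨hx₃0, hx₃X⟩).trans hx₃
  have hs2 := s2
  have hres : resid Th (x, 0) < 1 / X := by
    rw [resid_zero]
    calc √2 / 100 * |t x| ≤ 1.4143 / 100 * (2 / X) := by gcongr
      _ < 1 / X := by
        rw [mul_div_assoc', div_lt_div_iff_of_pos_right hX0]
        norm_num
  refine ⟨(x, 0), ⟨hx0, ?_⟩, ?_⟩
  · intro w hw1 hw2
    have hw20 : w.2 = 0 := resid_lower w.1 w.2 X hX3 (hw1.trans hxX) (hw2.trans_lt hres)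
    have hw : w = (w.1, 0) := by rw [← hw20]
    by_cases hw10 : w.1 = 0
    · left
      rw [hw, hw10]
      rfl
    · right
      rw [hw, resid_zero, resid_zero] at hw2
      have h1 : |t w.1| ≤ |t x| := by
        have hs1 := s1
        have : 0 < √2 / 100 := by positivity
        exact le_of_mul_le_mul_left hw2 this
      have h2 := hx w.1 ⟨hw10, hw1.trans hxX⟩
      rcases t_inj (le_antisymm h1 h2) with h | h
      · left; rw [hw, h]
      · right; rw [hw, h]; simp
  · rw [hxeq]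
    have : N < X := by omega
    exact_mod_cast this

lemma best_unique {Θ : Matrix (Fin 2) (Fin 2) ℝ} {z w : (Fin 2 → ℤ) × (Fin 2 → ℤ)} (hz : IsBest Θ z)
    (hw : IsBest Θ w) (h : ‖z.1‖ = ‖w.1‖) : w = z ∨ w = -z := by
  rcases le_total (resid Θ w) (resid Θ z) with h1 | h1
  · rcases hz.2 w h.ge h1 with h2 | h2
    · exact absurd (by rw [h2]; rfl) hw.1
    · exact h2
  · rcases hw.2 z h.le h1 with h2 | h2 | h2
    · exact absurd (by rw [h2]; rfl) hz.1
    · left; exact h2.symm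
    · right; rw [h2, neg_neg]

lemma exists_list : ∃ z, IsList Th z := by
  classical
  set A : Set ℕ := {n | ∃ z, IsBest Th z ∧ ‖z.1‖ = n} with hA
  have hinf : A.Infinite := by
    rw [Set.infinite_iff_exists_gt]
    intro N
    obtain ⟨z, hz, hN⟩ := exists_best N
    obtain ⟨n, hn⟩ := norm_cast_nat z.1
    refine ⟨n, ⟨z, hz, hn⟩, ?_⟩
    rw [hn] at hN
    exact_mod_cast hN
  have hnth : ∀ ν, Nat.nth (· ∈ A) ν ∈ A := fun ν => Nat.nth_mem_of_infinite hinf ν
  choose z hz hzn using hnth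
  refine ⟨z, hz, ?_, ?_⟩
  · intro a b hab
    show ‖(z a).1‖ < ‖(z b).1‖
    rw [hzn, hzn]
    exact_mod_cast Nat.nth_strictMono hinf hab
  · intro w hw
    obtain ⟨n, hn⟩ := norm_cast_nat w.1
    have hnA : n ∈ A := ⟨w, hw, hn⟩
    refine ⟨Nat.count (· ∈ A) n, ?_⟩
    apply best_unique (hz _) hw
    rw [hzn, hn, Nat.nth_count hnA]

lemma resid_lt {Θ : Matrix (Fin 2) (Fin 2) ℝ} {z w : (Fin 2 → ℤ) × (Fin 2 → ℤ)} (hz : IsBest Θ z)
    (hw : IsBest Θ w) (h : ‖z.1‖ < ‖w.1‖) : resid Θ w < resid Θ z := by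
  by_contra hcon
  push Not at hcon
  rcases hw.2 z h.le hcon with h2 | h2 | h2
  · exact hz.1 (by rw [h2]; rfl)
  · rw [h2] at h; exact lt_irrefl _ h
  · rw [h2] at h
    simp at h

/-- There is a real `2 × 2` matrix `Θ` with property (G) whose best approximation vectors form an infinite list, and
for every such list the span of `z ν`, `ν ≥ ν₀`, has dimension two for all large `ν₀`. -/
theorem result : ∃ Θ : Matrix (Fin 2) (Fin 2) ℝ, CondG Θ ∧ (∃ z, IsList Θ z) ∧
    ∀ z, IsList Θ z → ∃ N : ℕ, ∀ ν₀ ≥ N, Module.finrank ℝ (tailSpan z ν₀) = 2 := by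
  refine ⟨Th, ?_, exists_list, ?_⟩
  · intro x y hx h
    have h0 := congrFun h 0
    have h1 := congrFun h 1
    rw [Th_mulVec] at h0 h1
    simp only [if_true, mul_one] at h0
    simp only [Fin.isValue, one_ne_zero, if_false] at h1
    by_cases hy : y 0 = 0
    · rw [hy, Int.cast_zero, div_eq_zero_iff] at h0
      rcases h0 with h0 | h0
      · exact hx (t_eq_zero h0)
      · norm_num at h0
    · have h2 := sqrt2_lower (y 0) hy (y 1)
      have e : (y 0 : ℝ) * √2 - y 1 = 0 := by rw [← h0, ← h1]; ring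
      rw [e, abs_zero] at h2
      have h3 : 0 < |((y 0 : ℤ) : ℝ)| := by
        rw [abs_pos]; exact_mod_cast hy
      have : 0 < 1 / (4 * |((y 0 : ℤ) : ℝ)|) := by positivity
      linarith
  · rintro z ⟨hb, hmono, -⟩
    have hgrow : ∀ ν : ℕ, (ν : ℝ) ≤ ‖(z ν).1‖ := by
      intro ν
      induction ν with
      | zero => simp
      | succ ν ih =>
        have h1 : ‖(z ν).1‖ < ‖(z (ν + 1)).1‖ := hmono (Nat.lt_succ_self ν)
        obtain ⟨a, ha⟩ := norm_cast_nat (z ν).1
        obtain ⟨b, hb'⟩ := norm_cast_nat (z (ν + 1)).1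
        rw [ha, hb'] at h1
        rw [ha] at ih
        rw [hb']
        have h2 : a < b := by exact_mod_cast h1
        have h3 : ν ≤ a := by exact_mod_cast ih
        exact_mod_cast (by omega : ν + 1 ≤ b)
    refine ⟨3, fun ν₀ hν₀ => ?_⟩
    have hν₀' : (3 : ℝ) ≤ ν₀ := by exact_mod_cast hν₀
    have hsnd : ∀ ν, ν₀ ≤ ν → (z ν).2 = 0 := by
      intro ν hν
      apply best_snd (hb ν)
      refine le_trans ?_ (hgrow ν)
      have : (ν₀ : ℝ) ≤ ν := by exact_mod_cast hν
      linarith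
    apply le_antisymm
    · -- the span is contained in `y = 0`
      have hle : tailSpan z ν₀ ≤ LinearMap.range (LinearMap.inl ℝ (Fin 2 → ℝ) (Fin 2 → ℝ)) := by
        unfold tailSpan
        rw [Submodule.span_le]
        rintro v ⟨ν, hν, rfl⟩
        refine ⟨fun j => ((z ν).1 j : ℝ), ?_⟩
        rw [LinearMap.inl_apply]
        congr 1
        funext i
        rw [hsnd ν hν]
        simp
      calc Module.finrank ℝ (tailSpan z ν₀) ≤
            Module.finrank ℝ (LinearMap.range (LinearMap.inl ℝ (Fin 2 → ℝ) (Fin 2 → ℝ))) :=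
            Submodule.finrank_mono hle
        _ ≤ Module.finrank ℝ (Fin 2 → ℝ) := LinearMap.finrank_range_le _
        _ = 2 := by simp
    · -- two consecutive vectors are independent
      set v : Fin 2 → (Fin 2 → ℝ) × (Fin 2 → ℝ) :=
        ![(fun j => ((z ν₀).1 j : ℝ), fun i => ((z ν₀).2 i : ℝ)),
          (fun j => ((z (ν₀ + 1)).1 j : ℝ), fun i => ((z (ν₀ + 1)).2 i : ℝ))] with hv
      have hli : LinearIndependent ℝ v := by
        rw [hv, LinearIndependent.pair_iff' (by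
          intro h
          have h1 := congrArg Prod.fst h
          apply (hb ν₀).1
          funext j
          have := congrFun h1 j
          simpa using this)]
        intro a ha
        have h1 := congrArg Prod.fst ha
        have hx : ∀ j, a * ((z ν₀).1 j : ℝ) = ((z (ν₀ + 1)).1 j : ℝ) := by
          intro j
          have := congrFun h1 j
          simpa using this
        have hlt : ‖(z ν₀).1‖ < ‖(z (ν₀ + 1)).1‖ := hmono (Nat.lt_succ_self ν₀)
        -- `|a| > 1`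
        have ha1 : 1 < |a| := by
          by_contra hcon
          push Not at hcon
          have : ‖(z (ν₀ + 1)).1‖ ≤ ‖(z ν₀).1‖ := by
            rw [pi_norm_le_iff_of_nonneg (norm_nonneg _)]
            intro j
            rw [Int.norm_eq_abs, ← hx j, abs_mul]
            calc |a| * |((z ν₀).1 j : ℝ)| ≤ 1 * ‖(z ν₀).1‖ :=
                  mul_le_mul hcon (abs_le_norm _ j) (abs_nonneg _) zero_le_one
              _ = ‖(z ν₀).1‖ := one_mul _
          linarith
        have hr := resid_lt (hb ν₀) (hb (ν₀ + 1)) hlt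
        have e1 : z ν₀ = ((z ν₀).1, 0) := by rw [← hsnd ν₀ le_rfl]
        have e2 : z (ν₀ + 1) = ((z (ν₀ + 1)).1, 0) := by rw [← hsnd (ν₀ + 1) (Nat.le_succ _)]
        rw [e1, e2, resid_zero, resid_zero] at hr
        have ht : t (z (ν₀ + 1)).1 = a * t (z ν₀).1 := by
          unfold t
          rw [← hx 0, ← hx 1]
          ring
        rw [ht, abs_mul] at hr
        have hs1 := s1
        have hs : 0 < √2 / 100 := by positivity
        have h3 : |a| * |t (z ν₀).1| < |t (z ν₀).1| := lt_of_mul_lt_mul_left hr hs.le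
        nlinarith [abs_nonneg (t (z ν₀).1)]
      have hle : Submodule.span ℝ (Set.range v) ≤ tailSpan z ν₀ := by
        unfold tailSpan
        rw [Submodule.span_le]
        rintro _ ⟨i, rfl⟩
        apply Submodule.subset_span
        fin_cases i
        · exact ⟨ν₀, le_rfl, rfl⟩
        · exact ⟨ν₀ + 1, Nat.le_succ _, rfl⟩
      calc 2 = Module.finrank ℝ (Submodule.span ℝ (Set.range v)) := by
            rw [finrank_span_eq_card hli]; simp
        _ ≤ _ := Submodule.finrank_mono hle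

end Pool.Agent.Results.MP_a0fa86_nt.RankOneMatrix
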